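import Pool.Agent.R474.CE.StmQ

set_option autoImplicit false

namespace Pool.Agent.R884.CE.QWSUF

open Pool.Agent.R474.CE

/-- window codes -/
def E (C : Set Str) (D : ℕ) : Type :=
  {e : Fin (D + 1) → Fin (D + 1) → Bool // ∃ x ∈ C, x.n = D + 1 ∧ ∀ s t : Fin (D + 1), e s t = x.R s t}

instance (C : Set Str) (D : ℕ) : Finite (E C D) := by
  unfold E
  infer_instance

def Rr (C : Set Str) (D : ℕ) (e f : E C D) : Prop :=
  ∀ (s t : ℕ) (hs : s < D) (ht : t < D),
    e.1 ⟨s + 1, by omega⟩ ⟨t + 1, by omega⟩ = f.1 ⟨s, by omega⟩ ⟨t, by omega⟩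

lemma glue (h2 : S_QGLUE) (B : Set Str) (b D : ℕ) (hB : Std B b) (hbD : b ≤ D) (n : ℕ) :
    ∀ (w : ℕ → E (Av Pos B) D), (∀ t, t + 1 < n + 1 → Rr (Av Pos B) D (w t) (w (t + 1))) →
    ∃ x ∈ Av Pos B, x.n = n + 1 + D ∧ ∀ t < n + 1, ∀ s s' : Fin (D + 1),
      x.R (t + s) (t + s') = (w t).1 s s' := by
  induction n with
  | zero =>
    intro w _
    obtain ⟨x, hx, hn, hR⟩ := (w 0).2
    refine ⟨x, hx, by omega, fun t ht s s' => ?_⟩
    have : t = 0 := by omega
    subst this
    rw [hR, Nat.zero_add, Nat.zero_add]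
  | succ n ih =>
    intro w hw
    obtain ⟨x, hx, hn, hR⟩ := ih w (fun t ht => hw t (by omega))
    obtain ⟨z, hz, hzn, hzR⟩ := (w (n + 1)).2
    obtain ⟨y, hy, h3, h4, h5, -⟩ := h2 B b hB D hbD x hx z hz (by omega) (by omega) (by
      intro s hs t ht
      have e1 : x.n - D + s = n + (s + 1) := by omega
      have e2 : x.n - D + t = n + (t + 1) := by omega
      rw [e1, e2, Nat.zero_add, Nat.zero_add]
      have h6 := hR n (by omega) ⟨s + 1, by omega⟩ ⟨t + 1, by omega⟩
      simp only at h6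
      rw [h6, hw n (by omega) s t hs ht, hzR])
    refine ⟨y, hy, by omega, fun t ht s s' => ?_⟩
    have hs := s.2
    have hs' := s'.2
    by_cases htn : t < n + 1
    · have h6 := h4 (t + s) (by omega) (t + s') (by omega)
      rw [Nat.zero_add, Nat.zero_add] at h6
      rw [h6, hR t htn]
    · have e0 : t = n + 1 := by omega
      subst e0
      have h6 := h5 s (by omega) s' (by omega)
      have e1 : x.n - D = n + 1 := by omega
      rw [e1, Nat.zero_add, Nat.zero_add] at h6
      rw [h6, hzR]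

open Classical in
/-- the code of the window at `t` -/
noncomputable def code (h : S_QRES) (B : Set Str) (D : ℕ) (x : Str) (hx : x ∈ Av Pos B) (hn : D + 1 ≤ x.n) (t : ℕ) :
    E (Av Pos B) D :=
  if ht : t + (D + 1) ≤ x.n then
    ⟨fun s s' => x.R (t + s) (t + s'), win x t (D + 1), (h B).2 x hx t (D + 1) ht, rfl, fun _ _ => rfl⟩
  else ⟨fun s s' => x.R (0 + s) (0 + s'), win x 0 (D + 1), (h B).2 x hx 0 (D + 1) (by omega), rfl, fun _ _ => rfl⟩

lemma code_eq (h : S_QRES) (B : Set Str) (D : ℕ) (x : Str) (hx : x ∈ Av Pos B) (hn : D + 1 ≤ x.n) (t : ℕ)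
    (ht : t + (D + 1) ≤ x.n) (s s' : Fin (D + 1)) :
    (code h B D x hx hn t).1 s s' = x.R (t + s) (t + s') := by
  unfold code
  rw [dif_pos ht]

lemma large (D : ℕ) (f : ℕ → Str) (hf : ∀ i j, i ≠ j → ¬ Emb (f i) (f j)) :
    {i | D + 1 ≤ (f i).n}.Infinite := by
  by_contra hfin
  rw [Set.not_infinite] at hfin
  have hinf : {i | (f i).n < D + 1}.Infinite := by
    have h1 : {i | (f i).n < D + 1} = {i | D + 1 ≤ (f i).n}ᶜ := by
      ext i
      simp
    rw [h1]
    exact hfin.infinite_compl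
  let c : ℕ → Fin (D + 1) × (Fin (D + 1) → Fin (D + 1) → Bool) := fun i =>
    (⟨min (f i).n D, by omega⟩, fun s t => (f i).R s t)
  obtain ⟨i, hi, j, hj, hij, hc⟩ := hinf.exists_ne_map_eq_of_mapsTo (f := c) (Set.mapsTo_univ _ _) Set.finite_univ
  apply hf i j hij
  have hi' : (f i).n < D + 1 := hi
  have hj' : (f j).n < D + 1 := hj
  have h1 : min (f i).n D = min (f j).n D := by
    have := congrArg (fun q => (q.1 : ℕ)) hc
    exact this
  have h2 : ∀ s t : Fin (D + 1), (f i).R s t = (f j).R s t := by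
    intro s t
    have := congrFun (congrFun (congrArg Prod.snd hc) s) t
    exact this
  refine ⟨0, by omega, fun s hs t ht => ?_⟩
  rw [Nat.zero_add, Nat.zero_add]
  exact h2 ⟨s, by omega⟩ ⟨t, by omega⟩

theorem qwsuf (h1 : S_QSTR) (hdet : S_QDET) (hres : S_QRES) (h2 : S_QGLUE) : S_QWSUF := by
  intro B b D hB hbD hfree hmk
  rintro ⟨f, hfC, hf⟩
  -- the marker words are bounded
  have hmark : ∀ (n : ℕ) (w : ℕ → E (Av Pos B) D),
      (∀ t, t + 1 < n → Rr (Av Pos B) D (w t) (w (t + 1))) → 2 ≤ n →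
      (∀ t, 0 < t → t + 1 < n → w t ≠ w 0 ∧ w t ≠ w (n - 1)) → n ≤ TT D := by
    intro n w hw hn hwt
    by_contra hcon
    push Not at hcon
    obtain ⟨x, hx, hxn, hxR⟩ := glue h2 B b D hB hbD (n - 1) w (fun t ht => hw t (by omega))
    apply hmk (n + D) (by omega)
    refine ⟨x, hx, by omega, by omega, fun k hk1 hk2 => ?_⟩
    have key : ∀ l, l < n → Win (D + 1) x k x l → w k = w l := by
      intro l hl hW
      apply Subtype.ext
      funext s s'
      rw [← hxR k (by omega) s s', ← hxR l (by omega) s s']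
      exact hW s s.2 s' s'.2
    obtain ⟨h3, h4⟩ := hwt k (by omega) (by omega)
    refine ⟨fun hW => h3 (key 0 (by omega) hW), fun hW => h4 (key (n - 1) (by omega) ?_)⟩
    have e1 : n + D - D - 1 = n - 1 := by omega
    rw [e1] at hW
    exact hW
  -- the large structures
  have hinf := large D f hf
  let g : ℕ → ℕ := fun k => (hinf.natEmbedding _ k : ℕ)
  have hg : ∀ k, D + 1 ≤ (f (g k)).n := fun k => (hinf.natEmbedding _ k).2
  have hginj : Function.Injective g := fun a b hab => (hinf.natEmbedding _).injective (Subtype.ext hab)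
  let w : ℕ → ℕ → E (Av Pos B) D := fun k t => code hres B D (f (g k)) (hfC _) (hg k) t
  obtain ⟨i, j, p, hij, hp, heq⟩ := h1 (E (Av Pos B) D) (Rr (Av Pos B) D) (TT D) hmark
    (fun k => (f (g k)).n - D) w (by
      intro k t ht s s' hs hs'
      have hk := hg k
      show (code hres B D (f (g k)) (hfC _) (hg k) t).1 _ _ = (code hres B D (f (g k)) (hfC _) (hg k) (t + 1)).1 _ _
      rw [code_eq hres B D _ _ _ t (by omega), code_eq hres B D _ _ _ (t + 1) (by omega)]
      simp only
      congr 1 <;> omega)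
  have hi := hg i
  have hj := hg j
  have hpx : p + (f (g i)).n ≤ (f (g j)).n := by omega
  have hcode : ∀ t, t < (f (g i)).n - D → ∀ s s' : Fin (D + 1),
      (f (g i)).R (t + s) (t + s') = (f (g j)).R (p + t + s) (p + t + s') := by
    intro t ht s s'
    have h3 : code hres B D (f (g i)) (hfC _) (hg i) t = code hres B D (f (g j)) (hfC _) (hg j) (p + t) := heq t ht
    rw [← code_eq hres B D _ (hfC _) (hg i) t (by omega), ← code_eq hres B D _ (hfC _) (hg j) (p + t) (by omega), h3]
  have hdet' := hdet B b D hB hbD hfree (f (g i)) (hfC _) (win (f (g j)) p (f (g i)).n)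
    ((hres B).2 _ (hfC _) p _ hpx) rfl (by omega) (by
      intro k hk s hs t ht
      show (f (g i)).R (k + s) (k + t) = (f (g j)).R (p + (k + s)) (p + (k + t))
      by_cases hk2 : k < (f (g i)).n - D
      · have h3 := hcode k hk2 ⟨s, by omega⟩ ⟨t, by omega⟩
        simp only at h3
        rw [h3, Nat.add_assoc, Nat.add_assoc]
      · have h3 := hcode (k - 1) (by omega) ⟨s + 1, by omega⟩ ⟨t + 1, by omega⟩
        simp only at h3
        have e1 : k - 1 + (s + 1) = k + s := by omega
        have e2 : k - 1 + (t + 1) = k + t := by omega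
        have e3 : p + (k - 1) + (s + 1) = p + (k + s) := by omega
        have e4 : p + (k - 1) + (t + 1) = p + (k + t) := by omega
        rw [e1, e2, e3, e4] at h3
        exact h3)
  apply hf (g i) (g j) (fun h => hij (hginj h))
  refine ⟨p, hpx, fun s hs t ht => ?_⟩
  have h3 := hdet' s hs t ht
  rw [Nat.zero_add, Nat.zero_add] at h3
  exact h3

end Pool.Agent.R884.CE.QWSUF
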